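import Pool.Agent.MP_c7fc41_gt.Main

/-!
# Products of two triangles in dimension four

For every affine image `K` of the product of two triangles in `ℝ⁴` the Blaschke body of `K` is a
positive multiple of the central symmetral `½ (K + (-K))`, and `K` is not centrally symmetric.

The Blaschke body is the origin-symmetric convex body `B` with
`V'(B; L) = ½ (V'(K; L) + V'(-K; L))` for all compact `L`, where `V'(M; L)` is the derivative from
the right at `ε = 0` of the volume of `M + ε L`, which is the integral of the support function of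
(the convex hull of) `L` against the surface area measure of `M`.
-/

set_option autoImplicit false

open MeasureTheory Set
open scoped Pointwise

namespace Pool.Agent.Results.MP_c7fc41_gt.ProductOfTriangles

open Pool.Agent.MP_c7fc41_gt (E4 KK BB)

/-- Volumes of Minkowski sums and affine images. -/
theorem volume_image_add (A : E4 ≃L[ℝ] E4) (v : E4) (M L : Set E4) (ε : ℝ) :
    volume ((v +ᵥ A '' M) + ε • L) =
      ENNReal.ofReal |LinearMap.det ((A : E4 →L[ℝ] E4) : E4 →ₗ[ℝ] E4)| *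
        volume (M + ε • (A.symm '' L)) := by
  have h1 : (v +ᵥ A '' M) + ε • L = v +ᵥ A '' (M + ε • (A.symm '' L)) := by
    rw [vadd_add_assoc]
    congr 1
    ext x
    constructor
    · rintro ⟨_, ⟨m, hm, rfl⟩, _, ⟨l, hl, rfl⟩, rfl⟩
      refine ⟨m + ε • A.symm l, ⟨m, hm, ε • A.symm l, ⟨A.symm l, ⟨l, hl, rfl⟩, rfl⟩, rfl⟩, ?_⟩
      simp
    · rintro ⟨_, ⟨m, hm, _, ⟨_, ⟨l, hl, rfl⟩, rfl⟩, rfl⟩, rfl⟩
      refine ⟨A m, ⟨m, hm, rfl⟩, ε • l, ⟨l, hl, rfl⟩, ?_⟩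
      simp
  rw [h1, measure_vadd, Measure.addHaar_image_continuousLinearEquiv]
  rfl

theorem neg_affine (A : E4 ≃L[ℝ] E4) (v : E4) (M : Set E4) :
    -(v +ᵥ A '' M) = -v +ᵥ A '' (-M) := by
  ext x
  simp only [Set.mem_neg, mem_vadd_set, vadd_eq_add, mem_image]
  constructor
  · rintro ⟨_, ⟨m, hm, rfl⟩, h⟩
    refine ⟨A (-m), ⟨-m, by rwa [neg_neg], rfl⟩, ?_⟩
    rw [map_neg, ← neg_add, h, neg_neg]
  · rintro ⟨_, ⟨m, hm, rfl⟩, h⟩
    refine ⟨A (-m), ⟨-m, hm, rfl⟩, ?_⟩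
    rw [map_neg, ← h]
    abel

open Pool.Agent.MP_c7fc41_gt in
/-- The first variations of the volume for the product of two triangles. -/
theorem base_deriv (s : ℝ) (hs : 0 < s) (hs3 : s ^ 3 = 1 / 12) (L : Set E4) (hL : IsCompact L)
    (hne : L.Nonempty) : ∃ b k k' : ℝ,
      HasDerivWithinAt (fun ε : ℝ => (volume (BB s + ε • L)).toReal) b (Set.Ici 0) 0 ∧
      HasDerivWithinAt (fun ε : ℝ => (volume (KK + ε • L)).toReal) k (Set.Ici 0) 0 ∧
      HasDerivWithinAt (fun ε : ℝ => (volume (-KK + ε • L)).toReal) k' (Set.Ici 0) 0 ∧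
      b = (k + k') / 2 := by
  have cT' : IsCompact (poly vT cT ×ˢ poly vT cT) :=
    (isCompact_poly _ _ _ poly_T_box).prod (isCompact_poly _ _ _ poly_T_box)
  have cH' : IsCompact (poly vH (cH s) ×ˢ poly vH (cH s)) :=
    (isCompact_poly _ _ _ (poly_H_box s)).prod (isCompact_poly _ _ _ (poly_H_box s))
  have hL' : IsCompact (phi '' L) := hL.image continuous_phi
  have hne' : (phi '' L).Nonempty := hne.image _
  have hnL' : IsCompact (-(phi '' L)) := hL'.neg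
  have hnne' : (-(phi '' L)).Nonempty := hne'.neg
  have dB := deriv_H s hs (phi '' L) hL' hne'
  have dK := deriv_T (phi '' L) hL' hne'
  have dN := deriv_T (-(phi '' L)) hnL' hnne'
  have e1 : ∀ ε : ℝ, volume (BB s + ε • L) =
      volume (poly vH (cH s) ×ˢ poly vH (cH s) + ε • (phi '' L)) :=
    fun ε => volume_pre_add _ cH' L hL ε
  have e2 : ∀ ε : ℝ, volume (KK + ε • L) =
      volume (poly vT cT ×ˢ poly vT cT + ε • (phi '' L)) :=
    fun ε => volume_pre_add _ cT' L hL ε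
  have e3 : ∀ ε : ℝ, volume (-KK + ε • L) =
      volume (poly vT cT ×ˢ poly vT cT + ε • (-(phi '' L))) := by
    intro ε
    have h1 : -KK + ε • L = -(KK + ε • (-L)) := by
      rw [neg_add, smul_set_neg, neg_neg]
    have h2 : phi '' (-L) = -(phi '' L) := by
      ext p
      constructor
      · rintro ⟨x, hx, rfl⟩
        exact ⟨-x, hx, phi_neg x⟩
      · rintro ⟨x, hx, hxp⟩
        refine ⟨-x, by simpa using hx, ?_⟩
        rw [phi_neg, hxp, neg_neg]
    rw [h1, Measure.measure_neg, ← h2]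
    exact volume_pre_add _ cT' (-L) hL.neg ε
  simp only [e1, e2, e3]
  refine ⟨_, _, _, dB, dK, dN, ?_⟩
  simp only [H1_neg, H2_neg, Prod.neg_mk, neg_neg, neg_zero, hs3]
  ring

theorem KK_eq : KK = {x : EuclideanSpace ℝ (Fin 4) | (0 ≤ x 0 ∧ 0 ≤ x 1 ∧ x 0 + x 1 ≤ 1) ∧
    (0 ≤ x 2 ∧ 0 ≤ x 3 ∧ x 2 + x 3 ≤ 1)} := by
  ext x
  rw [Pool.Agent.MP_c7fc41_gt.mem_KK]
  rfl

theorem affine_body (A : E4 ≃L[ℝ] E4) (v : E4) (M : Set E4) (h1 : IsCompact M) (h2 : Convex ℝ M)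
    (h3 : (interior M).Nonempty) :
    IsCompact (v +ᵥ A '' M) ∧ Convex ℝ (v +ᵥ A '' M) ∧ (interior (v +ᵥ A '' M)).Nonempty := by
  refine ⟨(h1.image A.continuous).vadd v, ?_, ?_⟩
  · have := (h2.linear_image ((A : E4 →L[ℝ] E4) : E4 →ₗ[ℝ] E4)).vadd v
    exact this
  · rw [interior_vadd]
    have h4 : interior (A '' M) = A '' interior M := (A.toHomeomorph.image_interior M).symm
    rw [h4]
    exact (h3.image A).vadd_set

/-- For every invertible linear map `A` of Euclidean 4-space and every `v`, the convex body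
`K = v + A (T × T)`, `T` the triangle with vertices `(0,0)`, `(1,0)`, `(0,1)`, is not centrally
symmetric, and its Blaschke body `B` is a positive multiple of `½ (K + (-K))`. -/
theorem result (A : EuclideanSpace ℝ (Fin 4) ≃L[ℝ] EuclideanSpace ℝ (Fin 4))
    (v : EuclideanSpace ℝ (Fin 4)) (K : Set (EuclideanSpace ℝ (Fin 4)))
    (hK : K = v +ᵥ A '' {x : EuclideanSpace ℝ (Fin 4) | (0 ≤ x 0 ∧ 0 ≤ x 1 ∧ x 0 + x 1 ≤ 1) ∧
      (0 ≤ x 2 ∧ 0 ≤ x 3 ∧ x 2 + x 3 ≤ 1)}) :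
    IsCompact K ∧ Convex ℝ K ∧ (interior K).Nonempty ∧
    (¬ ∃ c : EuclideanSpace ℝ (Fin 4), ∀ y : EuclideanSpace ℝ (Fin 4),
      y ∈ K ↔ (2 : ℝ) • c - y ∈ K) ∧
    ∃ B : Set (EuclideanSpace ℝ (Fin 4)),
      IsCompact B ∧ Convex ℝ B ∧ (interior B).Nonempty ∧ -B = B ∧
      (∀ L : Set (EuclideanSpace ℝ (Fin 4)), IsCompact L → L.Nonempty →
        ∃ b k k' : ℝ,
          HasDerivWithinAt (fun ε : ℝ => (volume (B + ε • L)).toReal) b (Set.Ici 0) 0 ∧
          HasDerivWithinAt (fun ε : ℝ => (volume (K + ε • L)).toReal) k (Set.Ici 0) 0 ∧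
          HasDerivWithinAt (fun ε : ℝ => (volume (-K + ε • L)).toReal) k' (Set.Ici 0) 0 ∧
          b = (k + k') / 2) ∧
      ∃ r : ℝ, 0 < r ∧ B = r • ((1 / 2 : ℝ) • (K + -K)) := by
  rw [← KK_eq] at hK
  subst hK
  set s : ℝ := (1 / 12 : ℝ) ^ (1 / 3 : ℝ) with hs
  have hs0 : 0 < s := by positivity
  have hs3 : s ^ 3 = 1 / 12 := by
    rw [hs, ← Real.rpow_natCast, ← Real.rpow_mul (by norm_num)]
    norm_num
  have k1 : IsCompact KK := Pool.Agent.MP_c7fc41_gt.isCompact_pre _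
    (Pool.Agent.MP_c7fc41_gt.isCompact_poly _ _ _ Pool.Agent.MP_c7fc41_gt.poly_T_box)
  have k2 : Convex ℝ KK := Pool.Agent.MP_c7fc41_gt.convex_pre _
    (Pool.Agent.MP_c7fc41_gt.convex_poly _ _)
  have k3 : (interior KK).Nonempty := by
    refine Pool.Agent.MP_c7fc41_gt.interior_pre _ _ (1 / 4, 1 / 4) fun i => ?_
    fin_cases i <;> norm_num [Pool.Agent.MP_c7fc41_gt.lf, Pool.Agent.MP_c7fc41_gt.vT,
      Pool.Agent.MP_c7fc41_gt.cT]
  have b1 : IsCompact (BB s) := Pool.Agent.MP_c7fc41_gt.isCompact_pre _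
    (Pool.Agent.MP_c7fc41_gt.isCompact_poly _ _ _ (Pool.Agent.MP_c7fc41_gt.poly_H_box s))
  have b2 : Convex ℝ (BB s) := Pool.Agent.MP_c7fc41_gt.convex_pre _
    (Pool.Agent.MP_c7fc41_gt.convex_poly _ _)
  have b3 : (interior (BB s)).Nonempty := by
    refine Pool.Agent.MP_c7fc41_gt.interior_pre _ _ (0, 0) fun i => ?_
    simp [Pool.Agent.MP_c7fc41_gt.lf, Pool.Agent.MP_c7fc41_gt.cH, hs0]
  obtain ⟨q1, q2, q3⟩ := affine_body A v KK k1 k2 k3
  have hB : A '' (BB s) = (0 : E4) +ᵥ A '' (BB s) := by rw [zero_vadd]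
  obtain ⟨r1, r2, r3⟩ := affine_body A 0 (BB s) b1 b2 b3
  rw [← hB] at r1 r2 r3
  refine ⟨q1, q2, q3, ?_, A '' (BB s), r1, r2, r3, ?_, ?_, 2 * s, by positivity, ?_⟩
  · rintro ⟨c, hc⟩
    apply Pool.Agent.MP_c7fc41_gt.KK_not_symm
    refine ⟨A.symm (c - v), fun y => ?_⟩
    have h1 : ∀ z : E4, z ∈ (v +ᵥ A '' KK) ↔ A.symm (z - v) ∈ KK := by
      intro z
      simp only [mem_vadd_set, vadd_eq_add, mem_image]
      constructor
      · rintro ⟨_, ⟨m, hm, rfl⟩, rfl⟩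
        simpa using hm
      · intro h
        exact ⟨z - v, ⟨_, h, by simp⟩, by simp⟩
    have h2 := hc (v + A y)
    rw [h1, h1] at h2
    have e1 : A.symm (v + A y - v) = y := by simp
    have e2 : A.symm ((2 : ℝ) • c - (v + A y) - v) = (2 : ℝ) • A.symm (c - v) - y := by
      have : (2 : ℝ) • c - (v + A y) - v = (2 : ℝ) • (c - v) - A y := by
        rw [smul_sub, two_smul ℝ v]
        abel
      rw [this]
      simp
    rw [e1, e2] at h2
    exact h2
  · rw [hB, neg_affine, Pool.Agent.MP_c7fc41_gt.neg_BB, neg_zero]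
  · intro L hL hne
    obtain ⟨b, k, k', d1, d2, d3, hbk⟩ := base_deriv s hs0 hs3 (A.symm '' L)
      (hL.image A.symm.continuous) (hne.image _)
    set D : ℝ := |LinearMap.det ((A : E4 →L[ℝ] E4) : E4 →ₗ[ℝ] E4)| with hD
    have hvol : ∀ (w : E4) (M : Set E4) (ε : ℝ), (volume ((w +ᵥ A '' M) + ε • L)).toReal =
        D * (volume (M + ε • (A.symm '' L))).toReal := by
      intro w M ε
      rw [volume_image_add, ENNReal.toReal_mul, ENNReal.toReal_ofReal (abs_nonneg _)]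
    rw [hB, neg_affine]
    simp only [hvol]
    exact ⟨D * b, D * k, D * k', d1.const_mul D, d2.const_mul D, d3.const_mul D, by
      rw [hbk]; ring⟩
  · have h1 := Pool.Agent.MP_c7fc41_gt.BB_eq s hs0
    rw [zero_vadd] at h1
    have h2 : (v +ᵥ A '' KK) + -(v +ᵥ A '' KK) = A '' (KK + -KK) := by
      rw [neg_affine]
      ext x
      simp only [mem_add, mem_vadd_set, vadd_eq_add, mem_image]
      constructor
      · rintro ⟨_, ⟨_, ⟨m, hm, rfl⟩, rfl⟩, _, ⟨_, ⟨m', hm', rfl⟩, rfl⟩, rfl⟩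
        refine ⟨m + m', ⟨m, hm, m', hm', rfl⟩, ?_⟩
        rw [map_add]
        abel
      · rintro ⟨_, ⟨m, hm, m', hm', rfl⟩, rfl⟩
        refine ⟨v + A m, ⟨_, ⟨m, hm, rfl⟩, rfl⟩, -v + A m', ⟨_, ⟨m', hm', rfl⟩, rfl⟩, ?_⟩
        rw [map_add]
        abel
    rw [h2]
    nth_rewrite 1 [h1]
    have h3 : ∀ (t : ℝ) (M : Set E4), A '' (t • M) = t • A '' M := by
      intro t M
      ext x
      simp only [mem_image, mem_smul_set]
      constructor
      · rintro ⟨_, ⟨m, hm, rfl⟩, rfl⟩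
        exact ⟨A m, ⟨m, hm, rfl⟩, by rw [map_smul]⟩
      · rintro ⟨_, ⟨m, hm, rfl⟩, rfl⟩
        exact ⟨t • m, ⟨m, hm, rfl⟩, by rw [map_smul]⟩
    rw [h3, h3]

end Pool.Agent.Results.MP_c7fc41_gt.ProductOfTriangles
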